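import Pool.Agent.Helper87.EX.A
import Pool.Agent.Helper87.EX.B
import Pool.Agent.Helper87.EX.C

/-!
# Project EX, module W: the averaged volume cocycle (definitions)

`E 1` is `ℂ^3`; `F3` depends only on the last two coordinates of its four vectors.
-/

set_option autoImplicit false

namespace Pool.Agent.Helper71.EXW

open MeasureTheory Complex Pool.Agent.Helper87.EX
open scoped BigOperators

/-- squared modulus of the first coordinate -/
noncomputable def s0 (m : E 1) : ℝ := Complex.normSq (m 0 0)

/-- squared length of the last two coordinates -/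
noncomputable def tt (m : E 1) : ℝ := Complex.normSq (m 0 1) + Complex.normSq (m 0 2)

/-- first Hopf coordinate -/
noncomputable def x1 (m : E 1) : ℝ := 2 * ((starRingEnd ℂ) (m 0 1) * m 0 2).re

/-- second Hopf coordinate -/
noncomputable def x2 (m : E 1) : ℝ := 2 * ((starRingEnd ℂ) (m 0 1) * m 0 2).im

/-- third Hopf coordinate -/
noncomputable def x3 (m : E 1) : ℝ := Complex.normSq (m 0 1) - Complex.normSq (m 0 2)

/-- the row `(t, ξ)` of a vector -/
noncomputable def row (m : E 1) : Fin 4 → ℝ := ![tt m, x1 m, x2 m, x3 m]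

/-- the determinant of the four rows -/
noncomputable def dr (m : Fin 4 → E 1) : ℝ :=
  (Matrix.of fun i j => row (m i) j : Matrix (Fin 4) (Fin 4) ℝ).det

/-- the imaginary part of (numerator of the cross ratio) times (conjugate of the denominator) -/
noncomputable def im4 (m : Fin 4 → E 1) : ℝ :=
  (b2 (m 0 0) (m 2 0) * b2 (m 1 0) (m 3 0) *
    (starRingEnd ℂ) (b2 (m 0 0) (m 3 0) * b2 (m 1 0) (m 2 0))).im

/-- the Gaussian weight (without normalisation) of four vectors -/
noncomputable def gw (m : Fin 4 → E 1) : ℝ := ∏ i, Real.exp (-q (m i))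

theorem q_eq (m : E 1) : q m = s0 m + tt m := by
  simp [q, s0, tt, Fin.sum_univ_three, add_assoc]

theorem s0_nonneg (m : E 1) : 0 ≤ s0 m := Complex.normSq_nonneg _

theorem tt_nonneg (m : E 1) : 0 ≤ tt m :=
  add_nonneg (Complex.normSq_nonneg _) (Complex.normSq_nonneg _)

theorem q_nonneg (m : E 1) : 0 ≤ q m := by
  rw [q_eq]
  exact add_nonneg (s0_nonneg m) (tt_nonneg m)

theorem tt_le (m : E 1) : tt m ≤ q m := by
  rw [q_eq]
  linarith [s0_nonneg m]

theorem s0_le (m : E 1) : s0 m ≤ q m := by
  rw [q_eq]
  linarith [tt_nonneg m]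

theorem s0_meas : Measurable s0 := by
  unfold s0
  fun_prop

theorem tt_meas : Measurable tt := by
  unfold tt
  fun_prop

theorem x1_meas : Measurable x1 := by
  unfold x1
  fun_prop

theorem x2_meas : Measurable x2 := by
  unfold x2
  fun_prop

theorem x3_meas : Measurable x3 := by
  unfold x3
  fun_prop

theorem q_meas : Measurable (fun m : E 1 => q m) := by
  unfold q
  fun_prop

end Pool.Agent.Helper71.EXW
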