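import Pool.Agent.Helper71.EXW.Defs

/-!
# Project EX, module W, piece W1: `F3` is alternating, measurable, bounded
-/

set_option autoImplicit false

namespace Pool.Agent.Helper71.EXW

open MeasureTheory Complex Pool.Agent.Helper87.EX
open scoped BigOperators

/-- The brackets of the last two coordinates satisfy `Brk` (`ring`). -/
theorem b2_brk {ι : Type*} (y : ι → Fin 3 → ℂ) : Brk (fun i j => b2 (y i) (y j)) := by
  refine ⟨fun i j => ?_, fun i j k l => ?_⟩
  · simp only [b2]
    ring
  · simp only [b2]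
    ring

/-- `F3 m = crD b 0 1 2 3` with `b i j = b2 (m i 0) (m j 0)` (`rfl`), and
`F3 (m ∘ swap i j) = crD b (swap i j 0) (swap i j 1) (swap i j 2) (swap i j 3)`.  For the adjacent
transpositions use `crD_swap01`, `crD_swap12`, `crD_swap23` (module B), the other three are products
of three adjacent ones (`(0 2) = (0 1)(1 2)(0 1)`, ...); all 12 pairs `i ≠ j` by `fin_cases`. -/
theorem F3_alter : Alter F3 := by
  intro i j m hij
  have hb : Brk (fun i j : Fin 4 => b2 (m i 0) (m j 0)) := b2_brk (fun i => m i 0)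
  generalize hbd : (fun i j : Fin 4 => b2 (m i 0) (m j 0)) = b at hb
  have e0 : F3 m = crD b 0 1 2 3 := by rw [← hbd]; rfl
  have e1 : F3 (fun l => m (Equiv.swap i j l)) =
      crD b (Equiv.swap i j 0) (Equiv.swap i j 1) (Equiv.swap i j 2) (Equiv.swap i j 3) := by
    rw [← hbd]; rfl
  rw [e0, e1]
  have s01 : ∀ i j k l : Fin 4, crD b j i k l = -crD b i j k l := crD_swap01 hb
  have s12 : ∀ i j k l : Fin 4, crD b i k j l = -crD b i j k l := crD_swap12 hb
  have s23 : ∀ i j k l : Fin 4, crD b i j l k = -crD b i j k l := crD_swap23 hb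
  have s02 : ∀ i j k l : Fin 4, crD b k j i l = -crD b i j k l := by
    intro i j k l
    rw [s01 j k i l, s12 j i k l, s01 i j k l, neg_neg]
  have s13 : ∀ i j k l : Fin 4, crD b i l k j = -crD b i j k l := by
    intro i j k l
    rw [s12 i k l j, s23 i k j l, s12 i j k l, neg_neg]
  have s03 : ∀ i j k l : Fin 4, crD b l j k i = -crD b i j k l := by
    intro i j k l
    rw [s01 j l k i, s13 j i k l, s01 i j k l, neg_neg]
  fin_cases i <;> fin_cases j
  · exact absurd rfl hij
  · exact s01 0 1 2 3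
  · exact s02 0 1 2 3
  · exact s03 0 1 2 3
  · exact s01 0 1 2 3
  · exact absurd rfl hij
  · exact s12 0 1 2 3
  · exact s13 0 1 2 3
  · exact s02 0 1 2 3
  · exact s12 0 1 2 3
  · exact absurd rfl hij
  · exact s23 0 1 2 3
  · exact s03 0 1 2 3
  · exact s13 0 1 2 3
  · exact s23 0 1 2 3
  · exact absurd rfl hij

/-- `BW_meas`, and the argument is measurable. -/
theorem F3_meas : Measurable F3 := by
  unfold F3
  apply BW_meas.comp
  unfold b2
  fun_prop

theorem F3_bdd : ∃ C : ℝ, 0 ≤ C ∧ ∀ m, |F3 m| ≤ C := by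
  obtain ⟨C, h0, h⟩ := BW_bdd
  exact ⟨C, h0, fun m => h _⟩

/-- A bounded measurable function is integrable against all Gaussian weights:
`exp (-c * ∑ i, q (m i)) = ∏ i, exp (-c * q (m i))` is integrable by
`MeasureTheory.Integrable.fintype_prod` and `exp_q_int`; then `Integrable.bdd_mul` (or
`Integrable.mono'`). -/
theorem GI_of_bdd {k n : ℕ} {F : (Fin k → E n) → ℝ} (hm : Measurable F) (C : ℝ)
    (h : ∀ m, |F m| ≤ C) : GI F := by
  intro c hc
  have h1 : Integrable (fun m : Fin k → E n => ∏ i, Real.exp (-c * q (m i))) volume :=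
    MeasureTheory.Integrable.fintype_prod (f := fun (_ : Fin k) (m : E n) => Real.exp (-c * q m))
      (fun _ => exp_q_int hc)
  have h2 : (fun m : Fin k → E n => ∏ i, Real.exp (-c * q (m i))) =
      fun m : Fin k → E n => Real.exp (-c * ∑ i, q (m i)) := by
    funext m
    rw [← Real.exp_sum, Finset.mul_sum]
  rw [h2] at h1
  exact h1.bdd_mul hm.aestronglyMeasurable (Filter.Eventually.of_forall fun m => h m)

theorem F3_GI : GI F3 := by
  obtain ⟨C, -, h⟩ := F3_bdd
  exact GI_of_bdd F3_meas C h

end Pool.Agent.Helper71.EXW
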