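import Pool.Agent.Helper71.EXW.Defs

/-!
# Project EX, module W, piece W2: complex conjugation
-/

set_option autoImplicit false

namespace Pool.Agent.Helper71.EXW

open MeasureTheory Complex Pool.Agent.Helper87.EX
open scoped BigOperators

/-- entrywise conjugation -/
noncomputable def cjE {n : ℕ} (m : E n) : E n := fun j i => (starRingEnd ℂ) (m j i)

/-- Conjugation preserves the Lebesgue measure of `E n` (`Complex.conjLIE.measurePreserving`, twice
`MeasureTheory.volume_preserving_pi` (or `measurePreserving_pi`)), and `q (cjE m) = q m`, so it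
preserves `gam n = volume.withDensity ..`: e.g. `MeasurePreserving` from `Measure.map` and
`MeasurableEquiv` (conjugation is its own inverse), `lintegral` of the density over preimages. -/
theorem cjE_gam (n : ℕ) : MeasurePreserving (cjE (n := n)) (gam n) (gam n) := by
  have h0 : MeasurePreserving (fun z : ℂ => (starRingEnd ℂ) z) volume volume :=
    Complex.conjLIE.measurePreserving
  have h1 : MeasurePreserving (fun v : Fin 3 → ℂ => fun i => (starRingEnd ℂ) (v i))
      volume volume := volume_preserving_pi (fun _ => h0)
  have h2 : MeasurePreserving (cjE (n := n)) volume volume :=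
    volume_preserving_pi (fun _ => h1)
  have hr : Measurable fun m : E n => ENNReal.ofReal (rho m) := by
    unfold rho q
    fun_prop
  refine ⟨h2.measurable, ?_⟩
  ext s hs
  rw [Measure.map_apply h2.measurable hs]
  unfold gam
  rw [withDensity_apply _ (h2.measurable hs), withDensity_apply _ hs,
    ← h2.setLIntegral_comp_preimage hs hr]
  refine lintegral_congr fun m => ?_
  have hq : q (cjE m) = q m := by
    unfold q cjE
    simp only [Complex.normSq_conj]
  unfold rho
  rw [hq]

/-- `measurePreserving_pi` for `cjE_gam` (the measures `gam n` are probability measures, `gam_prob`). -/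
theorem cjE_pi (k n : ℕ) : MeasurePreserving (fun m : Fin k → E n => fun i => cjE (m i))
    (Measure.pi (fun _ : Fin k => gam n)) (Measure.pi (fun _ : Fin k => gam n)) := by
  have := gam_prob n
  exact measurePreserving_pi _ _ (fun _ => cjE_gam n)

/-- `act (emb (cj s)) (cjE m) = cjE (act (emb s) m)` (entries). -/
theorem act_cj {n : ℕ} (s : Matrix.SpecialLinearGroup (Fin 2) ℂ) (m : E n) :
    act ((emb (cj s) : G3) : Matrix (Fin 3) (Fin 3) ℂ) (cjE m) =
      cjE (act ((emb s : G3) : Matrix (Fin 3) (Fin 3) ℂ) m) := by
  have he : ∀ i k, ((emb (cj s) : G3) : Matrix (Fin 3) (Fin 3) ℂ) i k =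
      (starRingEnd ℂ) (((emb s : G3) : Matrix (Fin 3) (Fin 3) ℂ) i k) := by
    intro i k
    fin_cases i <;> fin_cases k <;> simp [emb, cj]
  funext j i
  simp only [act, cjE, Matrix.mulVec, dotProduct, he, map_sum, map_mul]

/-- `F3 (cjE ∘ m) = - F3 m`: the argument of `BW` is conjugated, `BW_conj`. -/
theorem F3_cj (m : Fin 4 → E 1) : F3 (fun i => cjE (m i)) = -F3 m := by
  unfold F3
  rw [← BW_conj]
  congr 1
  simp only [b2, cjE, map_div₀, map_mul, map_sub]

/-- Substitute `m ↦ cjE ∘ m` in the integral defining the left side (`cjE_pi`,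
`MeasurePreserving.integral_comp` with the measurable equivalence, or `integral_map`), use `act_cj`,
`F3_cj` and `integral_neg`.  (`MeasurePreserving.integral_comp'` wants a `MeasurableEquiv`: conjugation
is an involution.) -/
theorem Dbar_conj' (s : Fin 4 → Matrix.SpecialLinearGroup (Fin 2) ℂ) :
    HH F3 (fun i => emb (cj (s i))) = -HH F3 (fun i => emb (s i)) := by
  have hinv : Function.Involutive (fun m : Fin 4 → E 1 => fun i => cjE (m i)) := by
    intro m
    funext i j k
    simp [cjE]
  have hemb : MeasurableEmbedding (fun m : Fin 4 → E 1 => fun i => cjE (m i)) :=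
    (MeasurableEquiv.ofInvolutive _ hinv (cjE_pi 4 1).measurable).measurableEmbedding
  unfold HH
  rw [← (cjE_pi 4 1).integral_comp hemb, ← integral_neg]
  refine integral_congr_ae (Filter.Eventually.of_forall fun m => ?_)
  show F3 (fun i => act ((emb (cj (s i)) : G3) : Matrix (Fin 3) (Fin 3) ℂ) (cjE (m i))) =
    -F3 (fun i => act ((emb (s i) : G3) : Matrix (Fin 3) (Fin 3) ℂ) (m i))
  rw [← F3_cj]
  congr 1
  funext i
  exact act_cj (s i) (m i)

end Pool.Agent.Helper71.EXW
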