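import Pool.Agent.Helper71.EXW.Defs

/-!
# Project EX, module W, piece W3: scaling of a vector
-/

set_option autoImplicit false

namespace Pool.Agent.Helper71.EXW

open MeasureTheory Complex Pool.Agent.Helper87.EX
open scoped BigOperators

/-- `q m ^ k * exp (-c q m)` is integrable: `x ^ k ≤ (k! / (c/2)^k) exp (c x / 2)` for `x ≥ 0`
(`Real.pow_div_factorial_le_exp`), and `exp_q_int`. -/
theorem int_pow (k : ℕ) {c : ℝ} (hc : 0 < c) :
    Integrable (fun m : E 1 => q m ^ k * Real.exp (-c * q m)) volume := by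
  have hc2 : 0 < c / 2 := by positivity
  refine Integrable.mono' ((exp_q_int (n := 1) hc2).const_mul ((k.factorial : ℝ) / (c / 2) ^ k))
    ((q_meas.pow_const k).mul
      (Real.measurable_exp.comp (q_meas.const_mul (-c)))).aestronglyMeasurable ?_
  refine Filter.Eventually.of_forall fun m => ?_
  have hq := q_nonneg m
  have h1 := Real.pow_div_factorial_le_exp (c / 2 * q m) (by positivity) k
  rw [Real.norm_of_nonneg (by positivity)]
  have h2 : q m ^ k ≤ (k.factorial : ℝ) / (c / 2) ^ k * Real.exp (c / 2 * q m) := by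
    rw [div_le_iff₀ (by positivity), mul_pow] at h1
    rw [div_mul_eq_mul_div, le_div_iff₀ (by positivity)]
    linarith
  calc q m ^ k * Real.exp (-c * q m)
      ≤ (k.factorial : ℝ) / (c / 2) ^ k * Real.exp (c / 2 * q m) * Real.exp (-c * q m) :=
        mul_le_mul_of_nonneg_right h2 (Real.exp_pos _).le
    _ = (k.factorial : ℝ) / (c / 2) ^ k * Real.exp (-(c / 2) * q m) := by
        rw [mul_assoc, ← Real.exp_add]
        congr 2
        ring

private theorem q_smul (c : ℝ) (m : E 1) : q (c • m) = c ^ 2 * q m := by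
  simp [q, Fin.sum_univ_three, Complex.normSq_apply]
  ring

/-- `∫ f exp (-c² q) = c^(-6) ∫ f exp (-q)` for `c > 0`: `Measure.integral_comp_smul` for the function
`m ↦ f m * exp (-q m)` (`f (c • m) = f m`, `q (c • m) = c² q m`,
`Module.finrank ℝ (E 1) = 6`: `Module.finrank_pi`, `Module.finrank_fintype_fun_eq_card`,
`Complex.finrank_real_complex`; `finrank ℝ (Fin 1 → Fin 3 → ℂ)` by `simp`). -/
theorem int_smul {f : E 1 → ℝ} (hs : ∀ (c : ℝ) (m : E 1), 0 < c → f (c • m) = f m) {c : ℝ}
    (hc : 0 < c) : ∫ m, f m * Real.exp (-(c ^ 2) * q m) = (c ^ 6)⁻¹ * ∫ m, f m * Real.exp (-q m) := by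
  have hfr : Module.finrank ℝ (E 1) = 6 := by
    simp [Complex.finrank_real_complex, Module.finrank_pi_fintype]
  have : (volume : Measure (E 1)).IsAddHaarMeasure :=
    Measure.pi.isAddHaarMeasure (fun _ : Fin 1 => (volume : Measure (Fin 3 → ℂ)))
  have h := Measure.integral_comp_smul_of_nonneg (volume : Measure (E 1))
    (fun m : E 1 => f m * Real.exp (-q m)) c (hR := hc.le)
  rw [hfr] at h
  rw [smul_eq_mul] at h
  rw [← h]
  refine integral_congr_ae (Filter.Eventually.of_forall fun m => ?_)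
  simp only [hs c m hc, q_smul]
  ring_nf

/-- Differentiate `int_smul` in `c` at `c = 1`: the left side has the derivative
`∫ f m * (-2 q m) exp (-q m)` (`hasDerivAt_integral_of_dominated_loc_of_deriv_le`, for `c` in the ball
of radius `1/2` around `1` the derivative is bounded by `C * 3 * q * exp (-q/4)`, `int_pow`), the
right side has the derivative `-6 ∫ f exp (-q)`.  Both functions agree near `c = 1`. -/
theorem int_q {f : E 1 → ℝ} (hm : Measurable f) {C : ℝ} (hb : ∀ m, |f m| ≤ C)
    (hs : ∀ (c : ℝ) (m : E 1), 0 < c → f (c • m) = f m) :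
    ∫ m, f m * (q m * Real.exp (-q m)) = 3 * ∫ m, f m * Real.exp (-q m) := by
  have hC : 0 ≤ C := (abs_nonneg _).trans (hb 0)
  have hqm : Measurable (fun m : E 1 => q m) := q_meas
  have hder := hasDerivAt_integral_of_dominated_loc_of_deriv_le (μ := (volume : Measure (E 1)))
    (F := fun (c : ℝ) (m : E 1) => f m * Real.exp (-(c ^ 2) * q m))
    (F' := fun (c : ℝ) (m : E 1) => f m * (Real.exp (-(c ^ 2) * q m) * (-(2 * c) * q m)))
    (x₀ := (1 : ℝ)) (bound := fun m => C * (3 * (q m ^ 1 * Real.exp (-(1 / 4 : ℝ) * q m))))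
    (Metric.ball_mem_nhds (1 : ℝ) (by norm_num : (0 : ℝ) < 1 / 2))
    (Filter.Eventually.of_forall fun c => (hm.mul (Real.measurable_exp.comp
      (hqm.const_mul (-(c ^ 2))))).aestronglyMeasurable)
    ?_ ?_ ?_ ?_ ?_
  · have h1 := hder.2
    have h2 : HasDerivAt (fun c : ℝ => (c ^ 6)⁻¹ * ∫ m, f m * Real.exp (-q m))
        (-6 * ∫ m, f m * Real.exp (-q m)) 1 := by
      have h3 : HasDerivAt (fun c : ℝ => (c ^ 6)⁻¹) (-6) 1 := by
        have h7 := (hasDerivAt_pow 6 (1 : ℝ)).inv (by norm_num)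
        have h8 : -((6 : ℕ) * (1 : ℝ) ^ (6 - 1)) / ((1 : ℝ) ^ 6) ^ 2 = -6 := by norm_num
        rw [h8] at h7
        exact h7
      exact h3.mul_const _
    have h4 : (fun c : ℝ => ∫ m, f m * Real.exp (-(c ^ 2) * q m)) =ᶠ[nhds 1]
        (fun c : ℝ => (c ^ 6)⁻¹ * ∫ m, f m * Real.exp (-q m)) := by
      filter_upwards [lt_mem_nhds (show (0 : ℝ) < 1 by norm_num)] with c hc
      exact int_smul hs hc
    have h5 := h1.unique (h2.congr_of_eventuallyEq h4)
    have h6 : ∫ m, f m * (Real.exp (-((1 : ℝ) ^ 2) * q m) * (-(2 * 1) * q m))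
        = -2 * ∫ m, f m * (q m * Real.exp (-q m)) := by
      rw [← integral_const_mul]
      refine integral_congr_ae (Filter.Eventually.of_forall fun m => ?_)
      simp only [one_pow, neg_mul, one_mul]
      ring
    rw [h6] at h5
    linarith
  · have h0 : Integrable (fun m : E 1 => C * (q m ^ 0 * Real.exp (-1 * q m))) volume :=
      (int_pow 0 one_pos).const_mul C
    refine h0.mono' (hm.mul (Real.measurable_exp.comp
      (hqm.const_mul (-((1 : ℝ) ^ 2))))).aestronglyMeasurable
      (Filter.Eventually.of_forall fun m => ?_)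
    rw [norm_mul, Real.norm_eq_abs, Real.norm_of_nonneg (Real.exp_pos _).le]
    simp only [one_pow, pow_zero, one_mul]
    exact mul_le_mul_of_nonneg_right (hb m) (Real.exp_pos _).le
  · exact (hm.mul ((Real.measurable_exp.comp (hqm.const_mul (-((1 : ℝ) ^ 2)))).mul
      (hqm.const_mul (-(2 * 1))))).aestronglyMeasurable
  · refine Filter.Eventually.of_forall fun m c hc => ?_
    rw [Metric.mem_ball, Real.dist_eq, abs_lt] at hc
    obtain ⟨hc1, hc2⟩ := hc
    have hq := q_nonneg m
    rw [norm_mul, norm_mul, Real.norm_eq_abs, Real.norm_of_nonneg (Real.exp_pos _).le, pow_one]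
    have e1 : Real.exp (-(c ^ 2) * q m) ≤ Real.exp (-(1 / 4 : ℝ) * q m) := by
      apply Real.exp_le_exp.2
      have hcc : (1 / 4 : ℝ) ≤ c ^ 2 := by nlinarith
      nlinarith [mul_le_mul_of_nonneg_right hcc hq]
    have e2 : ‖-(2 * c) * q m‖ ≤ 3 * q m := by
      rw [Real.norm_eq_abs, abs_mul, abs_neg, abs_of_nonneg hq, abs_of_nonneg (by linarith)]
      nlinarith
    have e3 : Real.exp (-(c ^ 2) * q m) * ‖-(2 * c) * q m‖
        ≤ Real.exp (-(1 / 4 : ℝ) * q m) * (3 * q m) :=
      mul_le_mul e1 e2 (norm_nonneg _) (Real.exp_pos _).le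
    calc |f m| * (Real.exp (-(c ^ 2) * q m) * ‖-(2 * c) * q m‖)
        ≤ C * (Real.exp (-(1 / 4 : ℝ) * q m) * (3 * q m)) :=
          mul_le_mul (hb m) e3 (by positivity) hC
      _ = C * (3 * (q m * Real.exp (-(1 / 4 : ℝ) * q m))) := by ring
  · exact ((int_pow 1 (by norm_num : (0 : ℝ) < 1 / 4)).const_mul 3).const_mul C
  · refine Filter.Eventually.of_forall fun m c _ => ?_
    have h1 : HasDerivAt (fun c : ℝ => -(c ^ 2) * q m) (-(2 * c) * q m) c := by
      have := ((hasDerivAt_pow 2 c).neg).mul_const (q m)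
      simpa using this
    exact (h1.exp).const_mul (f m)

end Pool.Agent.Helper71.EXW
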