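import Pool.Agent.Helper71.EXW.W3

/-!
# Project EX, module W, piece W4: scaling of the last two coordinates
-/

set_option autoImplicit false

namespace Pool.Agent.Helper71.EXW

open MeasureTheory Complex Pool.Agent.Helper87.EX
open scoped BigOperators

/-- entries: `act (aT T) m` has the coordinates `e^(2T) m^0, e^(-T) m^1, e^(-T) m^2` -/
theorem q_aT (T : ℝ) (m : E 1) : q (act ((aT T : G3) : Matrix (Fin 3) (Fin 3) ℂ) m) =
    Real.exp (4 * T) * s0 m + Real.exp (-2 * T) * tt m := by
  have h4 : Real.exp (4 * T) = Real.exp (2 * T) * Real.exp (2 * T) := by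
    rw [← Real.exp_add]
    congr 1
    ring
  have h2 : Real.exp (-2 * T) = Real.exp (-T) * Real.exp (-T) := by
    rw [← Real.exp_add]
    congr 1
    ring
  have e0 : act ((aT T : G3) : Matrix (Fin 3) (Fin 3) ℂ) m 0 0 =
      ((Real.exp (2 * T) : ℝ) : ℂ) * m 0 0 := by
    simp [act, aT, Matrix.mulVec, dotProduct, Fin.sum_univ_three]
  have e1 : act ((aT T : G3) : Matrix (Fin 3) (Fin 3) ℂ) m 0 1 =
      ((Real.exp (-T) : ℝ) : ℂ) * m 0 1 := by
    simp [act, aT, Matrix.mulVec, dotProduct, Fin.sum_univ_three]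
  have e2 : act ((aT T : G3) : Matrix (Fin 3) (Fin 3) ℂ) m 0 2 =
      ((Real.exp (-T) : ℝ) : ℂ) * m 0 2 := by
    simp [act, aT, Matrix.mulVec, dotProduct, Fin.sum_univ_three]
  rw [q_eq, h4, h2]
  unfold s0 tt
  rw [e0, e1, e2]
  simp only [Complex.normSq_mul, Complex.normSq_ofReal]
  ring

/-- the action of a matrix as a measurable equivalence -/
noncomputable def actEquiv (g : G3) : E 1 ≃ᵐ E 1 where
  toFun := fun m => act (g : Matrix (Fin 3) (Fin 3) ℂ) m
  invFun := fun m => act ((g⁻¹ : G3) : Matrix (Fin 3) (Fin 3) ℂ) m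
  left_inv := by
    intro m
    funext j
    show ((g⁻¹ : G3) : Matrix (Fin 3) (Fin 3) ℂ).mulVec
      ((g : Matrix (Fin 3) (Fin 3) ℂ).mulVec (m j)) = m j
    rw [Matrix.mulVec_mulVec, ← Matrix.SpecialLinearGroup.coe_mul, inv_mul_cancel,
      Matrix.SpecialLinearGroup.coe_one, Matrix.one_mulVec]
  right_inv := by
    intro m
    funext j
    show (g : Matrix (Fin 3) (Fin 3) ℂ).mulVec
      (((g⁻¹ : G3) : Matrix (Fin 3) (Fin 3) ℂ).mulVec (m j)) = m j
    rw [Matrix.mulVec_mulVec, ← Matrix.SpecialLinearGroup.coe_mul, mul_inv_cancel,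
      Matrix.SpecialLinearGroup.coe_one, Matrix.one_mulVec]
  measurable_toFun := (act_mp g).measurable
  measurable_invFun := (act_mp g⁻¹).measurable

/-- `act_mp` (`MeasurePreserving.integral_comp'` for the linear equivalence `act (aT T)` with inverse
`act (aT (-T))`, or `HH`-free: `act_mp (aT T)` and `MeasurableEmbedding`), applied to
`m ↦ f m * exp (-q m)`; `f (act (aT T) m) = f m`. -/
theorem int_aT {f : E 1 → ℝ}
    (ha : ∀ (T : ℝ) (m : E 1), f (act ((aT T : G3) : Matrix (Fin 3) (Fin 3) ℂ) m) = f m) (T : ℝ) :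
    ∫ m, f m * Real.exp (-(Real.exp (4 * T) * s0 m + Real.exp (-2 * T) * tt m)) =
      ∫ m, f m * Real.exp (-q m) := by
  have hmp : MeasurePreserving (actEquiv (aT T)) volume volume := act_mp (aT T)
  have h := hmp.integral_comp (actEquiv (aT T)).measurableEmbedding
    (fun m => f m * Real.exp (-q m))
  rw [← h]
  refine integral_congr_ae (Filter.Eventually.of_forall fun m => ?_)
  show f m * Real.exp (-(Real.exp (4 * T) * s0 m + Real.exp (-2 * T) * tt m)) =
    f (act ((aT T : G3) : Matrix (Fin 3) (Fin 3) ℂ) m) *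
      Real.exp (-q (act ((aT T : G3) : Matrix (Fin 3) (Fin 3) ℂ) m))
  rw [ha, q_aT]

/-- the exponentials in `int_diff` stay in `[1/2, 2]` -/
theorem exp_bd {x : ℝ} (h : |x| ≤ 1 / 2) : 1 / 2 ≤ Real.exp x ∧ Real.exp x ≤ 2 := by
  have h1 := abs_le.mp h
  constructor
  · have h2 := Real.add_one_le_exp x
    linarith [h1.1]
  · have h2 : Real.exp x ≤ Real.exp (1 / 2) := Real.exp_le_exp.mpr h1.2
    have h3 : Real.exp (1 / 2) ≤ 2 := by
      have h4 := Real.add_one_le_exp (-(1 / 2 : ℝ))
      have h5 : Real.exp (1 / 2) * Real.exp (-(1 / 2)) = 1 := by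
        rw [← Real.exp_add]
        norm_num
      have h6 : 0 < Real.exp (1 / 2) := Real.exp_pos _
      nlinarith
    linarith

/-- integrability of a bounded measurable function times `r m * exp (-q m)`, `|r m| ≤ K q m` -/
theorem int_mul_q {f : E 1 → ℝ} (hm : Measurable f) {C : ℝ} (hb : ∀ m, |f m| ≤ C)
    {r : E 1 → ℝ} (hr : Measurable r) {K : ℝ} (hK : ∀ m, |r m| ≤ K * q m) :
    Integrable (fun m => f m * (r m * Real.exp (-q m))) volume := by
  have h1 := (int_pow 1 (c := 1) one_pos).const_mul (C * K)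
  refine h1.mono' ?_ (Filter.Eventually.of_forall fun m => ?_)
  · exact (hm.mul (hr.mul (Real.measurable_exp.comp q_meas.neg))).aestronglyMeasurable
  · have h2 : 0 < Real.exp (-q m) := Real.exp_pos _
    have h3 : 0 ≤ C := le_trans (abs_nonneg _) (hb m)
    have h4 : |f m| * |r m| ≤ C * (K * q m) :=
      mul_le_mul (hb m) (hK m) (abs_nonneg _) h3
    calc ‖f m * (r m * Real.exp (-q m))‖ = |f m| * |r m| * Real.exp (-q m) := by
          rw [Real.norm_eq_abs, abs_mul, abs_mul, abs_of_pos h2, mul_assoc]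
      _ ≤ C * (K * q m) * Real.exp (-q m) := mul_le_mul_of_nonneg_right h4 h2.le
      _ = C * K * (q m ^ 1 * Real.exp (-1 * q m)) := by
          rw [pow_one, neg_one_mul]
          ring

/-- Differentiate `int_aT` at `T = 0` (`hasDerivAt_integral_of_dominated_loc_of_deriv_le`, for
`|T| < 1/8` the derivative `-(4 e^(4T) s0 - 2 e^(-2T) tt) exp (..)` is bounded by
`16 q exp (-q/2)`: `e^(4T), e^(-2T) ∈ [1/2, 2]`). -/
theorem int_diff {f : E 1 → ℝ} (hm : Measurable f) {C : ℝ} (hb : ∀ m, |f m| ≤ C)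
    (ha : ∀ (T : ℝ) (m : E 1), f (act ((aT T : G3) : Matrix (Fin 3) (Fin 3) ℂ) m) = f m) :
    ∫ m, f m * ((4 * s0 m - 2 * tt m) * Real.exp (-q m)) = 0 := by
  have hbd : Integrable (fun m : E 1 => C * 16 * (q m ^ 1 * Real.exp (-(1 / 2) * q m))) volume :=
    (int_pow 1 (c := 1 / 2) (by norm_num)).const_mul (C * 16)
  have key := hasDerivAt_integral_of_dominated_loc_of_deriv_le (μ := (volume : Measure (E 1)))
    (x₀ := (0 : ℝ)) (s := Metric.ball (0 : ℝ) (1 / 8))
    (F := fun (T : ℝ) (m : E 1) =>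
      f m * Real.exp (-(Real.exp (4 * T) * s0 m + Real.exp (-2 * T) * tt m)))
    (F' := fun (T : ℝ) (m : E 1) =>
      f m * (Real.exp (-(Real.exp (4 * T) * s0 m + Real.exp (-2 * T) * tt m)) *
        (-(Real.exp (4 * T) * 4 * s0 m + Real.exp (-2 * T) * (-2) * tt m))))
    (bound := fun m : E 1 => C * 16 * (q m ^ 1 * Real.exp (-(1 / 2) * q m)))
    (Metric.ball_mem_nhds 0 (by norm_num)) ?_ ?_ ?_ ?_ hbd ?_
  · obtain ⟨-, hd⟩ := key
    have hc : (fun T : ℝ => ∫ m : E 1, f m *
        Real.exp (-(Real.exp (4 * T) * s0 m + Real.exp (-2 * T) * tt m))) =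
        fun _ => ∫ m, f m * Real.exp (-q m) := by
      funext T
      exact int_aT ha T
    rw [hc] at hd
    have h0 := hd.unique (hasDerivAt_const (0 : ℝ) (∫ m : E 1, f m * Real.exp (-q m)))
    have h1 : ∀ m : E 1, f m * (Real.exp (-(Real.exp (4 * (0 : ℝ)) * s0 m +
        Real.exp (-2 * (0 : ℝ)) * tt m)) *
        (-(Real.exp (4 * (0 : ℝ)) * 4 * s0 m + Real.exp (-2 * (0 : ℝ)) * (-2) * tt m))) =
        -(f m * ((4 * s0 m - 2 * tt m) * Real.exp (-q m))) := by
      intro m
      rw [q_eq, mul_zero, mul_zero, Real.exp_zero, one_mul, one_mul]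
      ring
    have h2 : ∫ m : E 1, -(f m * ((4 * s0 m - 2 * tt m) * Real.exp (-q m))) = 0 := by
      rw [← h0]
      exact integral_congr_ae (Filter.Eventually.of_forall fun m => (h1 m).symm)
    rw [integral_neg] at h2
    linarith
  · refine Filter.Eventually.of_forall fun T => ?_
    exact (hm.mul (Real.measurable_exp.comp
      ((s0_meas.const_mul _).add (tt_meas.const_mul _)).neg)).aestronglyMeasurable
  · have h1 := (int_pow 0 (c := 1) one_pos).const_mul C
    refine h1.mono' ?_ (Filter.Eventually.of_forall fun m => ?_)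
    · exact (hm.mul (Real.measurable_exp.comp
        ((s0_meas.const_mul _).add (tt_meas.const_mul _)).neg)).aestronglyMeasurable
    · have h2 : 0 < Real.exp (-q m) := Real.exp_pos _
      have h3 : Real.exp (-(Real.exp (4 * (0 : ℝ)) * s0 m + Real.exp (-2 * (0 : ℝ)) * tt m)) =
          Real.exp (-q m) := by
        rw [q_eq, mul_zero, mul_zero, Real.exp_zero, one_mul, one_mul]
      show ‖f m * Real.exp (-(Real.exp (4 * (0 : ℝ)) * s0 m +
        Real.exp (-2 * (0 : ℝ)) * tt m))‖ ≤ _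
      rw [h3, Real.norm_eq_abs, abs_mul, abs_of_pos h2, pow_zero, one_mul, neg_one_mul]
      exact mul_le_mul_of_nonneg_right (hb m) h2.le
  · exact (hm.mul ((Real.measurable_exp.comp
      ((s0_meas.const_mul _).add (tt_meas.const_mul _)).neg).mul
      ((s0_meas.const_mul _).add (tt_meas.const_mul _)).neg)).aestronglyMeasurable
  · refine Filter.Eventually.of_forall fun m T hT => ?_
    rw [Metric.mem_ball, dist_zero_right, Real.norm_eq_abs] at hT
    have hT4 : |4 * T| ≤ 1 / 2 := by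
      rw [abs_mul, abs_of_pos (by norm_num : (0 : ℝ) < 4)]
      linarith
    have hT2 : |-2 * T| ≤ 1 / 2 := by
      rw [abs_mul, abs_neg, abs_of_pos (by norm_num : (0 : ℝ) < 2)]
      linarith
    obtain ⟨a1, a2⟩ := exp_bd hT4
    obtain ⟨b1, b2⟩ := exp_bd hT2
    set a := Real.exp (4 * T)
    set b := Real.exp (-2 * T)
    have hs := s0_nonneg m
    have ht := tt_nonneg m
    have hq := q_eq m
    have h3 : 0 ≤ C := le_trans (abs_nonneg _) (hb m)
    have h4 : |-(a * 4 * s0 m + b * (-2) * tt m)| ≤ 16 * q m := by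
      rw [abs_le]
      have p1 : a * s0 m ≤ 2 * s0 m := mul_le_mul_of_nonneg_right a2 hs
      have p2 : b * tt m ≤ 2 * tt m := mul_le_mul_of_nonneg_right b2 ht
      have p3 : 0 ≤ a * s0 m := mul_nonneg (by linarith) hs
      have p4 : 0 ≤ b * tt m := mul_nonneg (by linarith) ht
      constructor <;> nlinarith
    have h5 : Real.exp (-(a * s0 m + b * tt m)) ≤ Real.exp (-(1 / 2) * q m) := by
      apply Real.exp_le_exp.mpr
      have p1 : 1 / 2 * s0 m ≤ a * s0 m := mul_le_mul_of_nonneg_right a1 hs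
      have p2 : 1 / 2 * tt m ≤ b * tt m := mul_le_mul_of_nonneg_right b1 ht
      rw [hq]
      linarith
    have h6 : 0 < Real.exp (-(a * s0 m + b * tt m)) := Real.exp_pos _
    have h7 : 0 ≤ q m := q_nonneg m
    show ‖f m * (Real.exp (-(a * s0 m + b * tt m)) * (-(a * 4 * s0 m + b * (-2) * tt m)))‖ ≤
      C * 16 * (q m ^ 1 * Real.exp (-(1 / 2) * q m))
    calc ‖f m * (Real.exp (-(a * s0 m + b * tt m)) * (-(a * 4 * s0 m + b * (-2) * tt m)))‖
        = |f m| * (Real.exp (-(a * s0 m + b * tt m)) * |-(a * 4 * s0 m + b * (-2) * tt m)|) := by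
          rw [Real.norm_eq_abs, abs_mul, abs_mul, abs_of_pos h6]
      _ ≤ C * (Real.exp (-(1 / 2) * q m) * (16 * q m)) := by
          refine mul_le_mul (hb m) ?_ (by positivity) h3
          exact mul_le_mul h5 h4 (abs_nonneg _) (Real.exp_pos _).le
      _ = C * 16 * (q m ^ 1 * Real.exp (-(1 / 2) * q m)) := by
          rw [pow_one]
          ring
  · refine Filter.Eventually.of_forall fun m T _ => ?_
    have e1 : HasDerivAt (fun T : ℝ => Real.exp (4 * T)) (Real.exp (4 * T) * 4) T := by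
      have := (((hasDerivAt_id T).const_mul (4 : ℝ))).exp
      simpa using this
    have e2 : HasDerivAt (fun T : ℝ => Real.exp (-2 * T)) (Real.exp (-2 * T) * (-2)) T := by
      have := (((hasDerivAt_id T).const_mul (-2 : ℝ))).exp
      simpa using this
    exact (((e1.mul_const (s0 m)).add (e2.mul_const (tt m))).neg.exp).const_mul (f m)

/-- `q = s0 + tt` and `int_q`, `int_diff`: with `A = ∫ f s0 e^(-q)`, `B = ∫ f tt e^(-q)`,
`J = ∫ f e^(-q)`: `A + B = 3 J`, `4 A = 2 B`, so `B = 2 J`. -/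
theorem int_tt {f : E 1 → ℝ} (hm : Measurable f) {C : ℝ} (hb : ∀ m, |f m| ≤ C)
    (hs : ∀ (c : ℝ) (m : E 1), 0 < c → f (c • m) = f m)
    (ha : ∀ (T : ℝ) (m : E 1), f (act ((aT T : G3) : Matrix (Fin 3) (Fin 3) ℂ) m) = f m) :
    ∫ m, f m * (tt m * Real.exp (-q m)) = 2 * ∫ m, f m * Real.exp (-q m) := by
  have hA : Integrable (fun m => f m * (s0 m * Real.exp (-q m))) volume :=
    int_mul_q hm hb s0_meas (K := 1) (fun m => by
      rw [one_mul, abs_of_nonneg (s0_nonneg m)]
      exact s0_le m)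
  have hB : Integrable (fun m => f m * (tt m * Real.exp (-q m))) volume :=
    int_mul_q hm hb tt_meas (K := 1) (fun m => by
      rw [one_mul, abs_of_nonneg (tt_nonneg m)]
      exact tt_le m)
  have h1 := int_q hm hb hs
  have h2 := int_diff hm hb ha
  have h3 : ∫ m, f m * (q m * Real.exp (-q m)) =
      (∫ m, f m * (s0 m * Real.exp (-q m))) + ∫ m, f m * (tt m * Real.exp (-q m)) := by
    rw [← integral_add hA hB]
    refine integral_congr_ae (Filter.Eventually.of_forall fun m => ?_)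
    show f m * (q m * Real.exp (-q m)) =
      f m * (s0 m * Real.exp (-q m)) + f m * (tt m * Real.exp (-q m))
    rw [q_eq]
    ring
  have h4 : ∫ m, f m * ((4 * s0 m - 2 * tt m) * Real.exp (-q m)) =
      4 * (∫ m, f m * (s0 m * Real.exp (-q m))) -
        2 * ∫ m, f m * (tt m * Real.exp (-q m)) := by
    rw [← integral_const_mul, ← integral_const_mul,
      ← integral_sub (hA.const_mul 4) (hB.const_mul 2)]
    refine integral_congr_ae (Filter.Eventually.of_forall fun m => ?_)
    show f m * ((4 * s0 m - 2 * tt m) * Real.exp (-q m)) =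
      4 * (f m * (s0 m * Real.exp (-q m))) - 2 * (f m * (tt m * Real.exp (-q m)))
    ring
  rw [h3] at h1
  rw [h4] at h2
  linarith

end Pool.Agent.Helper71.EXW
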