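import Pool.Agent.Helper71.EXW.W1
import Pool.Agent.Helper71.EXW.W4

/-!
# Project EX, module W, piece W5: integrability, and Fubini in the first vector
-/

set_option autoImplicit false

namespace Pool.Agent.Helper71.EXW

open MeasureTheory Complex Pool.Agent.Helper87.EX
open scoped BigOperators

/-- `|ξ| ≤ t ≤ q` for every entry of a row (`2 |a b| ≤ |a|² + |b|²`). -/
theorem row_le (m : E 1) (j : Fin 4) : |row m j| ≤ q m := by
  have h0 := tt_le m
  have h1 := tt_nonneg m
  have hx : ∀ a b : ℂ, |2 * ((starRingEnd ℂ) a * b).re| ≤ Complex.normSq a + Complex.normSq b ∧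
      |2 * ((starRingEnd ℂ) a * b).im| ≤ Complex.normSq a + Complex.normSq b := by
    intro a b
    simp only [Complex.mul_re, Complex.mul_im, Complex.conj_re, Complex.conj_im,
      Complex.normSq_apply]
    constructor
    · rw [abs_le]
      constructor <;> nlinarith [sq_nonneg (a.re + b.re), sq_nonneg (a.im + b.im),
        sq_nonneg (a.re - b.re), sq_nonneg (a.im - b.im)]
    · rw [abs_le]
      constructor <;> nlinarith [sq_nonneg (a.re + b.im), sq_nonneg (a.im - b.re),
        sq_nonneg (a.re - b.im), sq_nonneg (a.im + b.re)]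
  have h2 := hx (m 0 1) (m 0 2)
  have e : tt m = Complex.normSq (m 0 1) + Complex.normSq (m 0 2) := rfl
  fin_cases j
  · show |tt m| ≤ q m
    rw [abs_of_nonneg h1]
    exact h0
  · show |x1 m| ≤ q m
    exact h2.1.trans (e ▸ h0)
  · show |x2 m| ≤ q m
    exact h2.2.trans (e ▸ h0)
  · show |x3 m| ≤ q m
    have h3 := Complex.normSq_nonneg (m 0 1)
    have h4 := Complex.normSq_nonneg (m 0 2)
    have h5 : |x3 m| ≤ tt m := by
      rw [e]
      show |Complex.normSq (m 0 1) - Complex.normSq (m 0 2)| ≤ _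
      rw [abs_le]
      constructor <;> linarith
    exact h5.trans h0

/-- A function of four vectors bounded by `C * ∏ i, (1 + q (m i))` times the Gaussian weight is
integrable: `gw m * ∏ i, (1 + q (m i)) = ∏ i, (1 + q (m i)) exp (-q (m i))`
(`Integrable.fintype_prod`, `int_pow` with `k = 0, 1`), then `Integrable.mono'`. -/
theorem int4 {F : (Fin 4 → E 1) → ℝ} (hm : Measurable F) (C : ℝ)
    (h : ∀ m, |F m| ≤ C * ∏ i, (1 + q (m i))) : Integrable (fun m => F m * gw m) volume := by
  have h1 : Integrable (fun a : E 1 => (1 + q a) * Real.exp (-q a)) volume := by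
    have h2 : Integrable (fun a : E 1 => Real.exp (-q a)) volume := by
      simpa using exp_q_int (n := 1) (c := 1) one_pos
    have h3 : Integrable (fun a : E 1 => q a * Real.exp (-q a)) volume := by
      simpa using int_pow 1 (c := 1) one_pos
    have h4 := h2.add h3
    refine h4.congr (Filter.Eventually.of_forall fun a => ?_)
    show Real.exp (-q a) + q a * Real.exp (-q a) = (1 + q a) * Real.exp (-q a)
    ring
  have h5 : Integrable (fun m : Fin 4 → E 1 => ∏ i, ((1 + q (m i)) * Real.exp (-q (m i))))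
      volume := Integrable.fintype_prod (f := fun _ : Fin 4 => fun a : E 1 =>
        (1 + q a) * Real.exp (-q a)) fun _ => h1
  have hg : Measurable gw := by
    unfold gw
    refine Finset.measurable_prod _ fun i _ => ?_
    exact Real.measurable_exp.comp ((q_meas.comp (measurable_pi_apply i)).neg)
  refine Integrable.mono' (h5.const_mul C) (hm.mul hg).aestronglyMeasurable
    (Filter.Eventually.of_forall fun m => ?_)
  have h6 : 0 ≤ gw m := Finset.prod_nonneg fun i _ => (Real.exp_pos _).le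
  rw [Real.norm_eq_abs, abs_mul, abs_of_nonneg h6]
  have h7 : ∏ i, ((1 + q (m i)) * Real.exp (-q (m i))) = (∏ i, (1 + q (m i))) * gw m := by
    rw [Finset.prod_mul_distrib]
    rfl
  rw [h7, ← mul_assoc]
  exact mul_le_mul_of_nonneg_right (h m) h6

private theorem W5_key (c : ℂ) (hc : c ≠ 0) (a a' : E 1) (m : Fin 3 → E 1)
    (h1 : a' 0 1 = c * a 0 1) (h2 : a' 0 2 = c * a 0 2) :
    F3 (Fin.cons a' m) = F3 (Fin.cons a m) := by
  have hb : ∀ y : Fin 3 → ℂ, b2 (a' 0) y = c * b2 (a 0) y := by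
    intro y
    unfold b2
    rw [h1, h2]
    ring
  show BW (b2 (a' 0) (m 1 0) * b2 (m 0 0) (m 2 0) / (b2 (a' 0) (m 2 0) * b2 (m 0 0) (m 1 0))) =
    BW (b2 (a 0) (m 1 0) * b2 (m 0 0) (m 2 0) / (b2 (a 0) (m 2 0) * b2 (m 0 0) (m 1 0)))
  rw [hb, hb]
  congr 1
  rw [mul_assoc c, mul_assoc c, mul_div_mul_left _ _ hc]

/-- `F3` does not change if one of the vectors is scaled by a positive real number. -/
theorem F3_smul0 (c : ℝ) (hc : 0 < c) (a : E 1) (m : Fin 3 → E 1) :
    F3 (Fin.cons (c • a) m) = F3 (Fin.cons a m) :=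
  W5_key (c : ℂ) (by exact_mod_cast hc.ne') a (c • a) m (by simp) (by simp)

/-- `act (aT T)` scales the last two coordinates by `e^(-T)`. -/
theorem F3_aT0 (T : ℝ) (a : E 1) (m : Fin 3 → E 1) :
    F3 (Fin.cons (act ((aT T : G3) : Matrix (Fin 3) (Fin 3) ℂ) a) m) = F3 (Fin.cons a m) := by
  refine W5_key (Real.exp (-T) : ℂ) (by exact_mod_cast (Real.exp_pos (-T)).ne') a _ m ?_ ?_
  · simp [act, aT, Matrix.mulVec, dotProduct, Fin.sum_univ_three]
  · simp [act, aT, Matrix.mulVec, dotProduct, Fin.sum_univ_three]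

/-- Fubini: `MeasurableEquiv.piFinSuccAbove (fun _ : Fin 4 => E 1) 0` preserves the volume
(`volume_preserving_piFinSuccAbove`), so both sides are integrals over `E 1 × (Fin 3 → E 1)`; swap
the order (`integral_prod_symm`, integrability by `int4`), and for fixed `m` the inner integral over
the first vector `a` is `int_tt` for `f a = F3 (Fin.cons a m)` (`F3_smul0`, `F3_aT0`). -/
theorem int_tt4 :
    ∫ m : Fin 4 → E 1, F3 m * (tt (m 0) * x1 (m 1) * x2 (m 2) * x3 (m 3)) * gw m =
      2 * ∫ m : Fin 4 → E 1, F3 m * (x1 (m 1) * x2 (m 2) * x3 (m 3)) * gw m := by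
  obtain ⟨C, hC0, hC⟩ := F3_bdd
  have hmA : Measurable fun m : Fin 4 → E 1 =>
      F3 m * (tt (m 0) * x1 (m 1) * x2 (m 2) * x3 (m 3)) := by
    refine F3_meas.mul (((?_ : Measurable _).mul ?_).mul ?_ |>.mul ?_)
    · exact tt_meas.comp (measurable_pi_apply 0)
    · exact x1_meas.comp (measurable_pi_apply 1)
    · exact x2_meas.comp (measurable_pi_apply 2)
    · exact x3_meas.comp (measurable_pi_apply 3)
  have hmB : Measurable fun m : Fin 4 → E 1 =>
      F3 m * (x1 (m 1) * x2 (m 2) * x3 (m 3)) := by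
    refine F3_meas.mul ((?_ : Measurable _).mul ?_ |>.mul ?_)
    · exact x1_meas.comp (measurable_pi_apply 1)
    · exact x2_meas.comp (measurable_pi_apply 2)
    · exact x3_meas.comp (measurable_pi_apply 3)
  have hx1 : ∀ m : E 1, |x1 m| ≤ 1 + q m := fun m => by
    have h := row_le m 1
    simp only [row, Matrix.cons_val_one, Matrix.cons_val_zero] at h
    linarith
  have hx2 : ∀ m : E 1, |x2 m| ≤ 1 + q m := fun m => by
    have h := row_le m 2
    simp only [row, Matrix.cons_val] at h
    linarith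
  have hx3 : ∀ m : E 1, |x3 m| ≤ 1 + q m := fun m => by
    have h := row_le m 3
    simp only [row, Matrix.cons_val] at h
    linarith
  have htt : ∀ m : E 1, |tt m| ≤ 1 + q m := fun m => by
    have h := row_le m 0
    simp only [row, Matrix.cons_val_zero] at h
    linarith
  have hq1 : ∀ m : E 1, 1 ≤ 1 + q m := fun m => by linarith [q_nonneg m]
  have hiA : Integrable (fun m : Fin 4 → E 1 =>
      F3 m * (tt (m 0) * x1 (m 1) * x2 (m 2) * x3 (m 3)) * gw m) volume := by
    refine int4 hmA C fun m => ?_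
    rw [abs_mul, abs_mul, abs_mul, abs_mul, Fin.prod_univ_four]
    refine mul_le_mul (hC m) ?_ (by positivity) hC0
    exact mul_le_mul (mul_le_mul (mul_le_mul (htt _) (hx1 _) (abs_nonneg _)
      (by linarith [hq1 (m 0)])) (hx2 _) (abs_nonneg _)
      (mul_nonneg (by linarith [hq1 (m 0)]) (by linarith [hq1 (m 1)]))) (hx3 _) (abs_nonneg _)
      (mul_nonneg (mul_nonneg (by linarith [hq1 (m 0)]) (by linarith [hq1 (m 1)]))
        (by linarith [hq1 (m 2)]))
  have hiB : Integrable (fun m : Fin 4 → E 1 =>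
      F3 m * (x1 (m 1) * x2 (m 2) * x3 (m 3)) * gw m) volume := by
    refine int4 hmB C fun m => ?_
    rw [abs_mul, abs_mul, abs_mul, Fin.prod_univ_four]
    refine mul_le_mul (hC m) ?_ (by positivity) hC0
    have h0 : |x1 (m 1)| ≤ (1 + q (m 0)) * (1 + q (m 1)) := by
      calc |x1 (m 1)| ≤ 1 * (1 + q (m 1)) := by rw [one_mul]; exact hx1 _
        _ ≤ _ := mul_le_mul_of_nonneg_right (hq1 _) (by linarith [hq1 (m 1)])
    exact mul_le_mul (mul_le_mul h0 (hx2 _) (abs_nonneg _)
      (mul_nonneg (by linarith [hq1 (m 0)]) (by linarith [hq1 (m 1)]))) (hx3 _) (abs_nonneg _)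
      (mul_nonneg (mul_nonneg (by linarith [hq1 (m 0)]) (by linarith [hq1 (m 1)]))
        (by linarith [hq1 (m 2)]))
  have hmp := (volume_preserving_piFinSuccAbove (fun _ : Fin 4 => E 1) 0).symm
  have hfub : ∀ G : (Fin 4 → E 1) → ℝ, Integrable G volume →
      ∫ m, G m = ∫ m : Fin 3 → E 1, ∫ a : E 1, G (Fin.cons a m) := by
    intro G hG
    have hs : ∀ p : E 1 × (Fin 3 → E 1),
        (MeasurableEquiv.piFinSuccAbove (fun _ : Fin 4 => E 1) 0).symm p =
          (Fin.cons p.1 p.2 : Fin 4 → E 1) := fun p => Fin.insertNth_zero' p.1 p.2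
    have h1 : ∫ m, G m = ∫ p : E 1 × (Fin 3 → E 1),
        G ((MeasurableEquiv.piFinSuccAbove (fun _ : Fin 4 => E 1) 0).symm p) :=
      (hmp.integral_comp' G).symm
    have h2 : Integrable (fun p : E 1 × (Fin 3 → E 1) =>
        G ((MeasurableEquiv.piFinSuccAbove (fun _ : Fin 4 => E 1) 0).symm p)) volume :=
      (hmp.integrable_comp_emb (MeasurableEquiv.measurableEmbedding _)).mpr hG
    simp_rw [hs] at h1 h2
    rw [h1]
    haveI h3 : SigmaFinite (volume : Measure (E 1)) := inferInstance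
    haveI : ∀ i : Fin 3, SigmaFinite ((fun _ : Fin 3 => (volume : Measure (E 1))) i) :=
      fun _ => h3
    haveI : SigmaFinite (Measure.pi fun _ : Fin 3 => (volume : Measure (E 1))) :=
      Measure.pi.sigmaFinite (fun _ : Fin 3 => (volume : Measure (E 1)))
    haveI : SFinite (volume : Measure (Fin 3 → E 1)) :=
      (inferInstance : SFinite (Measure.pi fun _ : Fin 3 => (volume : Measure (E 1))))
    exact integral_prod_symm (μ := (volume : Measure (E 1)))
      (ν := (volume : Measure (Fin 3 → E 1))) (fun p : E 1 × (Fin 3 → E 1) =>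
        G (Fin.cons p.1 p.2 : Fin 4 → E 1)) h2
  rw [hfub _ hiA, hfub _ hiB, ← integral_const_mul]
  refine integral_congr_ae (Filter.Eventually.of_forall fun m => ?_)
  have hf : Measurable fun a : E 1 => F3 (Fin.cons a m) := by
    refine F3_meas.comp ?_
    refine measurable_pi_lambda _ fun i => ?_
    refine Fin.cases ?_ (fun j => ?_) i
    · exact measurable_id
    · exact measurable_const
  have key := int_tt (f := fun a : E 1 => F3 (Fin.cons a m)) hf (C := C) (fun a => hC _)
    (fun c a hc => F3_smul0 c hc a m) (fun T a => F3_aT0 T a m)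
  have hgw : ∀ a : E 1, gw (Fin.cons a m : Fin 4 → E 1) =
      Real.exp (-q a) * ∏ i : Fin 3, Real.exp (-q (m i)) := by
    intro a
    unfold gw
    rw [Fin.prod_univ_succ]
    simp
  show ∫ a : E 1, _ = 2 * ∫ a : E 1, _
  have e1 : ∀ a : E 1, F3 (Fin.cons a m) * (tt ((Fin.cons a m : Fin 4 → E 1) 0) *
      x1 ((Fin.cons a m : Fin 4 → E 1) 1) * x2 ((Fin.cons a m : Fin 4 → E 1) 2) *
      x3 ((Fin.cons a m : Fin 4 → E 1) 3)) * gw (Fin.cons a m : Fin 4 → E 1) =
      (x1 (m 0) * x2 (m 1) * x3 (m 2) * ∏ i : Fin 3, Real.exp (-q (m i))) *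
        (F3 (Fin.cons a m) * (tt a * Real.exp (-q a))) := by
    intro a
    rw [hgw]
    show F3 (Fin.cons a m) * (tt a * x1 (m 0) * x2 (m 1) * x3 (m 2)) * _ = _
    ring
  have e2 : ∀ a : E 1, F3 (Fin.cons a m) * (x1 ((Fin.cons a m : Fin 4 → E 1) 1) *
      x2 ((Fin.cons a m : Fin 4 → E 1) 2) * x3 ((Fin.cons a m : Fin 4 → E 1) 3)) *
      gw (Fin.cons a m : Fin 4 → E 1) =
      (x1 (m 0) * x2 (m 1) * x3 (m 2) * ∏ i : Fin 3, Real.exp (-q (m i))) *
        (F3 (Fin.cons a m) * Real.exp (-q a)) := by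
    intro a
    rw [hgw]
    show F3 (Fin.cons a m) * (x1 (m 0) * x2 (m 1) * x3 (m 2)) * _ = _
    ring
  simp_rw [e1, e2]
  rw [integral_const_mul, integral_const_mul, key]
  ring

end Pool.Agent.Helper71.EXW
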