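import Pool.Agent.Helper71.EXW.W1
import Pool.Agent.Helper71.EXW.W3

/-!
# Project EX, module W, piece W6: alternation
-/

set_option autoImplicit false

namespace Pool.Agent.Helper71.EXW

open MeasureTheory Complex Pool.Agent.Helper87.EX
open scoped BigOperators

/-- `Equiv.Perm.swap_induction_on` -/
theorem alter_perm {k : ℕ} {X : Type*} {F : (Fin k → X) → ℝ} (hF : Alter F)
    (σ : Equiv.Perm (Fin k)) (m : Fin k → X) :
    F (fun i => m (σ i)) = ((Equiv.Perm.sign σ : ℤ) : ℝ) * F m := by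
  revert m
  induction σ using Equiv.Perm.swap_induction_on with
  | one => intro m; simp
  | swap_mul f x y hxy ih =>
    intro m
    have h1 := ih (fun l => m (Equiv.swap x y l))
    rw [hF x y m hxy] at h1
    rw [Equiv.Perm.sign_mul, Equiv.Perm.sign_swap hxy]
    simp only [Equiv.Perm.coe_mul, Function.comp_apply]
    rw [h1]
    push_cast
    ring

/-- A permutation of the four vectors preserves the volume
(`MeasureTheory.volume_measurePreserving_piCongrLeft` or `measurePreserving_piCongrLeft`, for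
`fun m i => m (σ i)`); no integrability is needed (`MeasurePreserving.integral_comp'`). -/
theorem int_perm (σ : Equiv.Perm (Fin 4)) (F : (Fin 4 → E 1) → ℝ) :
    ∫ m : Fin 4 → E 1, F (fun i => m (σ i)) = ∫ m, F m := by
  have h1 := (volume_measurePreserving_piCongrLeft (fun _ : Fin 4 => E 1) σ.symm).integral_comp' F
  rw [← h1]
  congr 1
  ext m
  congr 1
  ext1 i
  have h2 := Equiv.piCongrLeft_apply_apply (fun _ : Fin 4 => E 1) σ.symm m (σ i)
  rw [Equiv.symm_apply_apply] at h2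
  exact h2.symm

/-- `Matrix.det_apply'`: `dr m = ∑ σ, sign σ * ∏ i, row (m (σ i)) i`; by `alter_perm`
`F3 m * sign σ = F3 (m ∘ σ)` (`sign σ ^ 2 = 1`), `gw (m ∘ σ) = gw m`, and `int_perm`.  Every one of the
24 summands is `∫ F3 m * ∏ i, row (m i) i * gw m`.  Integrability of the summands: hypothesis `hi`. -/
theorem int_dr (hi : ∀ σ : Equiv.Perm (Fin 4), Integrable (fun m : Fin 4 → E 1 =>
      F3 m * (((Equiv.Perm.sign σ : ℤ) : ℝ) * ∏ i, row (m (σ i)) i) * gw m) volume) :
    ∫ m : Fin 4 → E 1, F3 m * dr m * gw m =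
      24 * ∫ m : Fin 4 → E 1, F3 m * (tt (m 0) * x1 (m 1) * x2 (m 2) * x3 (m 3)) * gw m := by
  have h1 : ∀ m : Fin 4 → E 1, F3 m * dr m * gw m =
      ∑ σ : Equiv.Perm (Fin 4),
        F3 m * (((Equiv.Perm.sign σ : ℤ) : ℝ) * ∏ i, row (m (σ i)) i) * gw m := by
    intro m
    rw [dr, Matrix.det_apply', Finset.mul_sum, Finset.sum_mul]
    rfl
  have h2 : ∀ σ : Equiv.Perm (Fin 4), ∫ m : Fin 4 → E 1,
      F3 m * (((Equiv.Perm.sign σ : ℤ) : ℝ) * ∏ i, row (m (σ i)) i) * gw m =
      ∫ m : Fin 4 → E 1, F3 m * (tt (m 0) * x1 (m 1) * x2 (m 2) * x3 (m 3)) * gw m := by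
    intro σ
    rw [← int_perm σ (fun m => F3 m * (tt (m 0) * x1 (m 1) * x2 (m 2) * x3 (m 3)) * gw m)]
    congr 1
    ext m
    rw [alter_perm F3_alter σ m]
    have h3 : gw (fun i => m (σ i)) = gw m := by
      unfold gw
      exact Equiv.prod_comp σ (fun i => Real.exp (-q (m i)))
    have h4 : ∏ i, row (m (σ i)) i =
        tt (m (σ 0)) * x1 (m (σ 1)) * x2 (m (σ 2)) * x3 (m (σ 3)) := by
      rw [Fin.prod_univ_four]
      rfl
    rw [h3, h4]
    ring
  simp_rw [h1]
  rw [integral_finsetSum _ (fun σ _ => hi σ), Finset.sum_congr rfl (fun σ _ => h2 σ),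
    Finset.sum_const, Finset.card_univ, Fintype.card_perm, Fintype.card_fin, nsmul_eq_mul]
  norm_num [Nat.factorial]

end Pool.Agent.Helper71.EXW
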