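import Pool.Agent.Helper71.EXW.Defs

/-!
# Project EX, module W, piece W7: the determinant and the sign of the cross ratio
-/

set_option autoImplicit false

namespace Pool.Agent.Helper71.EXW

open MeasureTheory Complex Pool.Agent.Helper87.EX
open scoped BigOperators

private theorem W7_det4 {R : Type*} [CommRing R] (p u v r : Fin 4 → R) :
    (Matrix.of fun i j => (![p i, u i, v i, r i] : Fin 4 → R) j :
      Matrix (Fin 4) (Fin 4) R).det =
    p 0 * (u 1 * (v 2 * r 3 - r 2 * v 3) - v 1 * (u 2 * r 3 - r 2 * u 3) +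
        r 1 * (u 2 * v 3 - v 2 * u 3)) -
      u 0 * (p 1 * (v 2 * r 3 - r 2 * v 3) - v 1 * (p 2 * r 3 - r 2 * p 3) +
        r 1 * (p 2 * v 3 - v 2 * p 3)) +
      v 0 * (p 1 * (u 2 * r 3 - r 2 * u 3) - u 1 * (p 2 * r 3 - r 2 * p 3) +
        r 1 * (p 2 * u 3 - u 2 * p 3)) -
      r 0 * (p 1 * (u 2 * v 3 - v 2 * u 3) - u 1 * (p 2 * v 3 - v 2 * p 3) +
        v 1 * (p 2 * u 3 - u 2 * p 3)) := by
  simp [Matrix.det_succ_row_zero, Fin.sum_univ_succ, Fin.succAbove]
  ring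

/-- Polynomial identity in the coordinates and their conjugates. -/
theorem dr_eq (m : Fin 4 → E 1) : dr m = 8 * im4 m := by
  have h1 : dr m = (Matrix.of fun i j => (![tt (m i), x1 (m i), x2 (m i), x3 (m i)] : Fin 4 → ℝ) j :
      Matrix (Fin 4) (Fin 4) ℝ).det := rfl
  rw [h1, W7_det4]
  apply Complex.ofReal_injective
  have ht : ∀ i, ((tt (m i) : ℝ) : ℂ) = (starRingEnd ℂ) (m i 0 1) * m i 0 1 +
      (starRingEnd ℂ) (m i 0 2) * m i 0 2 := by
    intro i
    rw [tt, Complex.ofReal_add, Complex.normSq_eq_conj_mul_self, Complex.normSq_eq_conj_mul_self]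
  have h3 : ∀ i, ((x3 (m i) : ℝ) : ℂ) = (starRingEnd ℂ) (m i 0 1) * m i 0 1 -
      (starRingEnd ℂ) (m i 0 2) * m i 0 2 := by
    intro i
    rw [x3, Complex.ofReal_sub, Complex.normSq_eq_conj_mul_self, Complex.normSq_eq_conj_mul_self]
  have hx1 : ∀ i, ((x1 (m i) : ℝ) : ℂ) = (starRingEnd ℂ) (m i 0 1) * m i 0 2 +
      m i 0 1 * (starRingEnd ℂ) (m i 0 2) := by
    intro i
    rw [x1, ← Complex.add_conj, map_mul, Complex.conj_conj]
  have hx2 : ∀ i, ((x2 (m i) : ℝ) : ℂ) = -I * ((starRingEnd ℂ) (m i 0 1) * m i 0 2 -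
      m i 0 1 * (starRingEnd ℂ) (m i 0 2)) := by
    intro i
    have h := Complex.sub_conj ((starRingEnd ℂ) (m i 0 1) * m i 0 2)
    rw [map_mul, Complex.conj_conj] at h
    rw [h, x2]
    linear_combination ((2 * ((starRingEnd ℂ) (m i 0 1) * m i 0 2).im : ℝ) : ℂ) * Complex.I_sq
  have him : ((im4 m : ℝ) : ℂ) = -I / 2 * (b2 (m 0 0) (m 2 0) * b2 (m 1 0) (m 3 0) *
      (starRingEnd ℂ) (b2 (m 0 0) (m 3 0) * b2 (m 1 0) (m 2 0)) -
      (starRingEnd ℂ) (b2 (m 0 0) (m 2 0) * b2 (m 1 0) (m 3 0)) *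
      (b2 (m 0 0) (m 3 0) * b2 (m 1 0) (m 2 0))) := by
    unfold im4
    generalize b2 (m 0 0) (m 2 0) * b2 (m 1 0) (m 3 0) = A
    generalize b2 (m 0 0) (m 3 0) * b2 (m 1 0) (m 2 0) = B
    have h := Complex.sub_conj (A * (starRingEnd ℂ) B)
    rw [map_mul, Complex.conj_conj] at h
    rw [h]
    push_cast
    linear_combination ((A * (starRingEnd ℂ) B).im : ℂ) * Complex.I_sq
  simp only [Complex.ofReal_add, Complex.ofReal_sub, Complex.ofReal_mul, him, ht, h3, hx1, hx2]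
  simp only [b2, map_mul, map_sub]
  push_cast
  generalize m 0 0 1 = a0
  generalize m 1 0 1 = a1
  generalize m 2 0 1 = a2
  generalize m 3 0 1 = a3
  generalize m 0 0 2 = c0
  generalize m 1 0 2 = c1
  generalize m 2 0 2 = c2
  generalize m 3 0 2 = c3
  generalize (starRingEnd ℂ) a0 = a0'
  generalize (starRingEnd ℂ) a1 = a1'
  generalize (starRingEnd ℂ) a2 = a2'
  generalize (starRingEnd ℂ) a3 = a3'
  generalize (starRingEnd ℂ) c0 = c0'
  generalize (starRingEnd ℂ) c1 = c1'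
  generalize (starRingEnd ℂ) c2 = c2'
  generalize (starRingEnd ℂ) c3 = c3'
  ring

/-- `F3 m = BW (Y / W)` and `im (Y / W) = im4 m / |W|²`; if `im4 m > 0` then `W ≠ 0` and
`F3 m > 0` by `BW_pos`; if `im4 m < 0` use `BW_conj`: `BW z = -BW (conj z) < 0`. -/
theorem F3_mul_pos (m : Fin 4 → E 1) (h : im4 m ≠ 0) : 0 < F3 m * im4 m := by
  unfold im4 at h
  unfold im4 F3
  generalize b2 (m 0 0) (m 2 0) * b2 (m 1 0) (m 3 0) = A at h ⊢
  generalize b2 (m 0 0) (m 3 0) * b2 (m 1 0) (m 2 0) = B at h ⊢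
  have hB : B ≠ 0 := by
    rintro rfl
    simp at h
  have hN : 0 < Complex.normSq B := Complex.normSq_pos.2 hB
  have him : (A / B).im = (A * (starRingEnd ℂ) B).im / Complex.normSq B := by
    rw [div_eq_mul_inv, Complex.inv_def, ← mul_assoc, Complex.im_mul_ofReal, div_eq_mul_inv]
  rcases lt_or_gt_of_ne h with h1 | h1
  · have h2 : 0 < ((starRingEnd ℂ) (A / B)).im := by
      rw [Complex.conj_im, him]
      have := div_neg_of_neg_of_pos h1 hN
      linarith
    have h3 := BW_pos h2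
    rw [BW_conj] at h3
    exact mul_pos_of_neg_of_neg (by linarith) h1
  · have h2 : 0 < (A / B).im := by
      rw [him]
      exact div_pos h1 hN
    exact mul_pos (BW_pos h2) h1

/-- by cases `im4 m = 0` -/
theorem F3_mul_nonneg (m : Fin 4 → E 1) : 0 ≤ F3 m * im4 m := by
  by_cases h : im4 m = 0
  · rw [h, mul_zero]
  · exact (F3_mul_pos m h).le

/-- The set `{im4 ≠ 0}` is open (`im4` is continuous) and not empty: with `e_1, e_2` the last two
basis vectors take `m_0 = e_1`, `m_1 = e_2`, `m_2 = e_1 + e_2`, `m_3 = e_1 + i e_2`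
(`b2 0 2 = 1`, `b2 1 3 = -1`, `b2 0 3 = i`, `b2 1 2 = -1`, so `im4 = im (-1 * conj (-i)) ≠ 0`). -/
theorem im4_open : IsOpen {m : Fin 4 → E 1 | im4 m ≠ 0} ∧ {m : Fin 4 → E 1 | im4 m ≠ 0}.Nonempty := by
  constructor
  · have hc : Continuous im4 := by
      unfold im4 b2
      fun_prop
    exact isOpen_ne_fun hc continuous_const
  · refine ⟨![fun _ => ![0, 1, 0], fun _ => ![0, 0, 1], fun _ => ![0, 1, 1], fun _ => ![0, 1, I]], ?_⟩
    simp [im4, b2]

/-- `integral_pos_iff_support_of_nonneg`: the integrand is nonnegative, and its support contains the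
open non empty set of `im4_open`, which has positive volume (`IsOpen.measure_pos`). -/
theorem int_pos (hi : Integrable (fun m : Fin 4 → E 1 => F3 m * im4 m * gw m) volume) :
    0 < ∫ m : Fin 4 → E 1, F3 m * im4 m * gw m := by
  have hg : ∀ m, 0 < gw m := fun m => Finset.prod_pos fun i _ => Real.exp_pos _
  have h1 : ∀ _ : Fin 1, (volume : Measure (Fin 3 → ℂ)).IsOpenPosMeasure := fun _ => inferInstance
  have h2 : ∀ _ : Fin 4, (volume : Measure (Fin 1 → Fin 3 → ℂ)).IsOpenPosMeasure := fun _ =>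
    @Measure.pi.isOpenPosMeasure (Fin 1) (fun _ => Fin 3 → ℂ) _ _ (fun _ => volume) _ _ h1
  have h4 : (volume : Measure (Fin 4 → E 1)).IsOpenPosMeasure :=
    @Measure.pi.isOpenPosMeasure (Fin 4) (fun _ => Fin 1 → Fin 3 → ℂ) _ _ (fun _ => volume) _ _ h2
  rw [integral_pos_iff_support_of_nonneg (fun m => mul_nonneg (F3_mul_nonneg m) (hg m).le) hi]
  refine lt_of_lt_of_le (im4_open.1.measure_pos volume im4_open.2) (measure_mono ?_)
  intro m hm
  exact (mul_pos (F3_mul_pos m hm) (hg m)).ne'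

end Pool.Agent.Helper71.EXW
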