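import Pool.Agent.Helper71.EXW.W5
import Pool.Agent.Helper71.EXW.W6
import Pool.Agent.Helper71.EXW.W7

/-!
# Project EX, module W, piece W8: the coefficient is not zero
-/

set_option autoImplicit false

namespace Pool.Agent.Helper71.EXW

open MeasureTheory Complex Pool.Agent.Helper87.EX
open scoped BigOperators

theorem row_meas (j : Fin 4) : Measurable (fun m : E 1 => row m j) := by
  fin_cases j
  · exact tt_meas
  · exact x1_meas
  · exact x2_meas
  · exact x3_meas

private theorem W8_prod_meas (σ : Equiv.Perm (Fin 4)) :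
    Measurable (fun m : Fin 4 → E 1 => ∏ i, row (m (σ i)) i) :=
  Finset.measurable_prod _ fun i _ => (row_meas i).comp (measurable_pi_apply (σ i))

private theorem W8_prod_le (σ : Equiv.Perm (Fin 4)) (m : Fin 4 → E 1) :
    |∏ i, row (m (σ i)) i| ≤ ∏ i, (1 + q (m i)) := by
  rw [Finset.abs_prod, ← Equiv.prod_comp σ (fun i => 1 + q (m i))]
  refine Finset.prod_le_prod (fun i _ => abs_nonneg _) fun i _ => ?_
  linarith [row_le (m (σ i)) i]

private theorem W8_sign (σ : Equiv.Perm (Fin 4)) : |((Equiv.Perm.sign σ : ℤ) : ℝ)| = 1 := by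
  rcases Int.units_eq_one_or (Equiv.Perm.sign σ) with h | h <;> simp [h]

private theorem W8_prod_nonneg (m : Fin 4 → E 1) : 0 ≤ ∏ i, (1 + q (m i)) :=
  Finset.prod_nonneg fun i _ => by linarith [q_nonneg (m i)]

private theorem W8_dr (m : Fin 4 → E 1) : dr m =
    ∑ σ : Equiv.Perm (Fin 4), ((Equiv.Perm.sign σ : ℤ) : ℝ) * ∏ i, row (m (σ i)) i := by
  unfold dr
  rw [Matrix.det_apply']
  rfl

private theorem W8_dr_meas : Measurable dr := by
  have h : dr = fun m => ∑ σ : Equiv.Perm (Fin 4), ((Equiv.Perm.sign σ : ℤ) : ℝ) *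
      ∏ i, row (m (σ i)) i := funext W8_dr
  rw [h]
  exact Finset.measurable_sum _ fun σ _ => (W8_prod_meas σ).const_mul _

private theorem W8_dr_le (m : Fin 4 → E 1) : |dr m| ≤ 24 * ∏ i, (1 + q (m i)) := by
  rw [W8_dr]
  refine (Finset.abs_sum_le_sum_abs _ _).trans ?_
  calc ∑ σ : Equiv.Perm (Fin 4), |((Equiv.Perm.sign σ : ℤ) : ℝ) * ∏ i, row (m (σ i)) i|
      ≤ ∑ _σ : Equiv.Perm (Fin 4), ∏ i, (1 + q (m i)) := by
        refine Finset.sum_le_sum fun σ _ => ?_
        rw [abs_mul, W8_sign, one_mul]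
        exact W8_prod_le σ m
    _ = 24 * ∏ i, (1 + q (m i)) := by
        rw [Finset.sum_const, Finset.card_univ, Fintype.card_perm, Fintype.card_fin]
        simp [Nat.factorial]

/-- the coefficient is not zero -/
theorem kap_ne :
    ∫ m : Fin 4 → E 1, F3 m * (x1 (m 1) * x2 (m 2) * x3 (m 3)) * gw m ≠ 0 := by
  obtain ⟨C, hC, hb⟩ := F3_bdd
  have hi : Integrable (fun m : Fin 4 → E 1 => F3 m * im4 m * gw m) volume := by
    refine int4 (F := fun m => F3 m * im4 m) ?_ (C * 3) fun m => ?_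
    · have h1 : im4 = fun m => dr m / 8 := by
        funext m
        rw [dr_eq]
        ring
      rw [h1]
      exact F3_meas.mul (W8_dr_meas.div_const _)
    · have h1 : im4 m = dr m / 8 := by
        rw [dr_eq]
        ring
      rw [h1, abs_mul, abs_div, abs_of_pos (show (0:ℝ) < 8 by norm_num)]
      have h2 := W8_dr_le m
      have h3 : |dr m| / 8 ≤ 3 * ∏ i, (1 + q (m i)) := by linarith
      calc |F3 m| * (|dr m| / 8) ≤ C * (3 * ∏ i, (1 + q (m i))) :=
            mul_le_mul (hb m) h3 (by positivity) hC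
        _ = C * 3 * ∏ i, (1 + q (m i)) := by ring
  have hpos := int_pos hi
  have h1 : ∫ m : Fin 4 → E 1, F3 m * dr m * gw m = 8 * ∫ m : Fin 4 → E 1, F3 m * im4 m * gw m := by
    rw [← integral_const_mul]
    refine integral_congr_ae (Filter.Eventually.of_forall fun m => ?_)
    show F3 m * dr m * gw m = 8 * (F3 m * im4 m * gw m)
    rw [dr_eq]
    ring
  have h2 := int_dr fun σ => by
    refine int4 (F := fun m => F3 m * (((Equiv.Perm.sign σ : ℤ) : ℝ) * ∏ i, row (m (σ i)) i)) ?_ C
      fun m => ?_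
    · exact F3_meas.mul ((W8_prod_meas σ).const_mul _)
    · rw [abs_mul, abs_mul, W8_sign, one_mul]
      exact mul_le_mul (hb m) (W8_prod_le σ m) (abs_nonneg _) hC
  rw [h1, int_tt4] at h2
  intro h0
  rw [h0] at h2
  linarith

end Pool.Agent.Helper71.EXW
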