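import Pool.Agent.Helper71.EXW.W8
import Pool.Agent.Helper24.EXJ.Jet
import Pool.Agent.Helper24.EXJ.Kernel

/-!
# Project EX, module W, piece W9: the jet of the averaged volume cocycle
-/

set_option autoImplicit false

namespace Pool.Agent.Helper71.EXW

open MeasureTheory Complex Matrix Pool.Agent.Helper87.EX
open scoped BigOperators

theorem qf0 (m : E 1) : qf (PM 0) m = x1 m := by
  simp [qf, PM, x1, dotProduct, Matrix.mulVec, Fin.sum_univ_three]
  ring

theorem qf1 (m : E 1) : qf (PM 1) m = x2 m := by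
  simp [qf, PM, x2, dotProduct, Matrix.mulVec, Fin.sum_univ_three]
  ring

theorem qf2 (m : E 1) : qf (PM 2) m = x3 m := by
  simp [qf, PM, x3, dotProduct, Matrix.mulVec, Fin.sum_univ_three, Complex.normSq_apply]
  ring

theorem wF_eq : wF F3 PM =
    8 / Z 1 ^ 4 * ∫ m : Fin 4 → E 1, F3 m * (x1 (m 1) * x2 (m 2) * x3 (m 3)) * gw m := by
  unfold wF
  rw [← integral_const_mul]
  refine integral_congr_ae (Filter.Eventually.of_forall fun m => ?_)
  simp only [Fin.prod_univ_three, qf0, qf1, qf2, gw, Fin.prod_univ_four, rho]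
  have h1 : (Fin.succ 0 : Fin 4) = 1 := rfl
  have h2 : (Fin.succ 1 : Fin 4) = 2 := rfl
  have h3 : (Fin.succ 2 : Fin 4) = 3 := rfl
  rw [h1, h2, h3]
  ring

theorem wF_ne : wF F3 PM ≠ 0 := by
  rw [wF_eq]
  exact mul_ne_zero (div_ne_zero (by norm_num) (pow_ne_zero _ (Z_pos 1).ne')) kap_ne

theorem emb_one : emb 1 = 1 := by
  apply Subtype.ext
  ext i j
  fin_cases i <;> fin_cases j <;> simp [emb]

theorem cons_sg (ε : ℝ) : (Fin.cons (1 : G3) (fun j : Fin 3 => emb (sg ε j.succ)) : Fin 4 → G3) =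
    fun i => emb (sg ε i) := by
  funext i
  refine Fin.cases ?_ (fun j => ?_) i
  · rw [Fin.cons_zero]
    exact emb_one.symm
  · rw [Fin.cons_succ]

theorem Dbar_jet' : ∃ κ : ℝ, κ ≠ 0 ∧ ∃ C : ℝ, ∀ ε ∈ Set.Ioc (0:ℝ) 1,
    |HH F3 (fun i => emb (sg ε i)) - κ * ε ^ 3| ≤ C * ε ^ 4 := by
  obtain ⟨C, hC⟩ := jet (r := 3) F3_GI F3_alter (fun j ε => emb (sg ε j.succ)) PM tan_sg
  refine ⟨wF F3 PM, wF_ne, C, fun ε hε => ?_⟩
  have h := hC ε hε
  rw [cons_sg] at h
  exact h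

end Pool.Agent.Helper71.EXW
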